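import Pool.Agent.Helper95.PW.Stmts

/-! Row LMT of project PW (MP_56acfd_mp): limits along the approximation. -/

set_option autoImplicit false

namespace Pool.Agent.Helper95.PW

open MeasureTheory Filter

/-- the derivative of a smooth compactly supported function -/
theorem lmt_dv {n : ℕ} {v : Cf n → ℝ} (h1 : ContDiff ℝ (⊤ : ℕ∞) v) (h2 : HasCompactSupport v)
    (k : Fin n) (i : Fin 3) : Continuous (dv k i v) ∧ HasCompactSupport (dv k i v) := by
  constructor
  · exact (h1.continuous_fderiv (by simp)).clm_apply continuous_const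
  · exact h2.fderiv_apply (𝕜 := ℝ) _

theorem lmt_mem {n : ℕ} {v : Cf n → ℝ} (h1 : Continuous v) (h2 : HasCompactSupport v) :
    MemLp v 2 := h1.memLp_of_hasCompactSupport h2

/-- comparison of two squares -/
theorem lmt_cmp {n : ℕ} (a b : Wf n) (ha : ∀ s, MemLp (a s) 2) (hb : ∀ s, MemLp (b s) 2)
    (ε : ℝ) (hε : 0 < ε) :
    |sq a - sq b| ≤ ε * sq b + (1 + 1 / ε) * sq (fun s x => a s x - b s x) := by
  unfold sq
  rw [← Finset.sum_sub_distrib, Finset.mul_sum, Finset.mul_sum, ← Finset.sum_add_distrib]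
  refine (Finset.abs_sum_le_sum_abs _ _).trans (Finset.sum_le_sum fun s _ => ?_)
  have ia := (ha s).integrable_sq
  have ib := (hb s).integrable_sq
  have iab := ((ha s).sub (hb s)).integrable_sq
  rw [← integral_sub ia ib, ← integral_const_mul, ← integral_const_mul]
  have iab' : Integrable (fun x => (a s x - b s x) ^ 2) := iab
  rw [← integral_add (ib.const_mul ε) (iab'.const_mul (1 + 1 / ε))]
  refine (abs_integral_le_integral_abs).trans
    (integral_mono (ia.sub ib).abs ((ib.const_mul ε).add (iab'.const_mul (1 + 1 / ε))) fun x => ?_)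
  simp only [Pi.sub_apply, Pi.add_apply]
  have h1 : (1 + 1 / ε) * (a s x - b s x) ^ 2 = (a s x - b s x) ^ 2 + (a s x - b s x) ^ 2 / ε := by
    ring
  have h2 : 2 * |b s x * (a s x - b s x)| ≤ ε * b s x ^ 2 + (a s x - b s x) ^ 2 / ε := by
    have h3 : 0 ≤ (ε * |b s x| - |a s x - b s x|) ^ 2 / ε := by positivity
    have h4 : (ε * |b s x| - |a s x - b s x|) ^ 2 / ε =
        ε * |b s x| ^ 2 + |a s x - b s x| ^ 2 / ε - 2 * (|b s x| * |a s x - b s x|) := by
      field_simp
      ring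
    rw [h4, sq_abs, sq_abs, ← abs_mul] at h3
    linarith
  have h5 : |a s x ^ 2 - b s x ^ 2| ≤ 2 * |b s x * (a s x - b s x)| + (a s x - b s x) ^ 2 := by
    have h6 : a s x ^ 2 - b s x ^ 2 = 2 * (b s x * (a s x - b s x)) + (a s x - b s x) ^ 2 := by
      ring
    rw [h6]
    refine (abs_add_le _ _).trans ?_
    rw [abs_mul (2 : ℝ) (b s x * (a s x - b s x)), abs_of_pos (by norm_num : (0 : ℝ) < 2),
      abs_of_nonneg (_root_.sq_nonneg (a s x - b s x))]
  rw [h1]
  linarith

theorem lmt_sq_nonneg {n : ℕ} (a : Wf n) : 0 ≤ sq a :=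
  Finset.sum_nonneg fun s _ => integral_nonneg fun x => _root_.sq_nonneg _

/-- convergence of the squares -/
theorem lmt_conv {n : ℕ} (a : ℕ → Wf n) (b : Wf n) (ha : ∀ j s, MemLp (a j s) 2)
    (hb : ∀ s, MemLp (b s) 2)
    (h : Tendsto (fun j => sq (fun s x => a j s x - b s x)) atTop (nhds 0)) :
    Tendsto (fun j => sq (a j)) atTop (nhds (sq b)) := by
  rw [Metric.tendsto_atTop]
  intro η hη
  have hB := lmt_sq_nonneg b
  have hε : 0 < η / (2 * (sq b + 1)) := by positivity
  have h2 : Tendsto (fun j => (1 + 1 / (η / (2 * (sq b + 1)))) *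
      sq (fun s x => a j s x - b s x)) atTop (nhds 0) := by
    have := h.const_mul (1 + 1 / (η / (2 * (sq b + 1))))
    rwa [mul_zero] at this
  obtain ⟨N, hN⟩ := (Metric.tendsto_atTop.mp h2) (η / 2) (by positivity)
  refine ⟨N, fun j hj => ?_⟩
  have h3 := hN j hj
  rw [Real.dist_eq, sub_zero] at h3
  have h4 := lmt_cmp (a j) b (ha j) hb _ hε
  rw [Real.dist_eq]
  have h5 : η / (2 * (sq b + 1)) * sq b < η / 2 := by
    rw [div_mul_eq_mul_div, div_lt_div_iff₀ (by positivity) (by norm_num)]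
    nlinarith
  have h6 := le_abs_self ((1 + 1 / (η / (2 * (sq b + 1)))) * sq (fun s x => a j s x - b s x))
  linarith

/-- the coefficients are bounded -/
theorem lmt_coef (g : R3 → ℝ) (hg : ContDiff ℝ (⊤ : ℕ∞) g) (hc : HasCompactSupport g) :
    (∀ i, Continuous (pd i g)) ∧ Continuous (lap g) ∧
    ∃ M : ℝ, 0 ≤ M ∧ (∀ i y, |pd i g y| ≤ M) ∧ ∀ y, |lap g y / 2| ≤ M := by
  have c1 : ∀ i, ContDiff ℝ (⊤ : ℕ∞) (pd i g) := fun i =>
    (hg.fderiv_right (m := (⊤ : ℕ∞)) (by simp)).clm_apply contDiff_const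
  have s1 : ∀ i, HasCompactSupport (pd i g) := fun i => hc.fderiv_apply (𝕜 := ℝ) _
  have c2 : ∀ i, Continuous (pd i (pd i g)) := fun i =>
    ((c1 i).continuous_fderiv (by simp)).clm_apply continuous_const
  have s2 : ∀ i, HasCompactSupport (pd i (pd i g)) := fun i => (s1 i).fderiv_apply (𝕜 := ℝ) _
  have cl : Continuous (lap g) := continuous_finsetSum _ fun i _ => c2 i
  refine ⟨fun i => (c1 i).continuous, cl, ?_⟩
  choose A hA using fun i => (s1 i).exists_bound_of_continuous (c1 i).continuous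
  choose B hB using fun i => (s2 i).exists_bound_of_continuous (c2 i)
  refine ⟨(∑ i, |A i|) + ∑ i, |B i|, by positivity, ?_, ?_⟩
  · intro i y
    have h1 := hA i y
    rw [Real.norm_eq_abs] at h1
    have h2 : |A i| ≤ ∑ i, |A i| :=
      Finset.single_le_sum (f := fun i => |A i|) (fun _ _ => abs_nonneg _) (Finset.mem_univ i)
    have h3 : 0 ≤ ∑ i, |B i| := Finset.sum_nonneg fun _ _ => abs_nonneg _
    linarith [le_abs_self (A i)]
  · intro y
    have h1 : |lap g y| ≤ ∑ i, |B i| := by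
      refine (Finset.abs_sum_le_sum_abs _ _).trans (Finset.sum_le_sum fun i _ => ?_)
      have := hB i y
      rw [Real.norm_eq_abs] at this
      exact this.trans (le_abs_self _)
    have h3 : 0 ≤ ∑ i, |A i| := Finset.sum_nonneg fun _ _ => abs_nonneg _
    rw [abs_div, abs_of_pos (by norm_num : (0 : ℝ) < 2)]
    have := abs_nonneg (lap g y)
    linarith

/-- product with a bounded continuous function -/
theorem lmt_bdd {n : ℕ} (c f : Cf n → ℝ) (hc : Continuous c) (M : ℝ) (hM : ∀ x, |c x| ≤ M)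
    (hf : MemLp f 2) : MemLp (fun x => c x * f x) 2 := by
  have h : MemLp c ⊤ := memLp_top_of_bound hc.aestronglyMeasurable M
    (Eventually.of_forall fun x => by rw [Real.norm_eq_abs]; exact hM x)
  exact hf.mul' h

theorem lmt_PG_mem {n : ℕ} (g : R3 → ℝ) (hg : ContDiff ℝ (⊤ : ℕ∞) g) (hc : HasCompactSupport g)
    (φ : Wf n) (G : Fin n → Fin 3 → Wf n) (hφ : ∀ s, MemLp (φ s) 2)
    (hG : ∀ k i s, MemLp (G k i s) 2) (s : Fin n → Fin 2) : MemLp (PG g φ G s) 2 := by
  obtain ⟨c1, c2, M, hM, b1, b2⟩ := lmt_coef g hg hc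
  have h1 : MemLp (fun x : Cf n => ∑ k : Fin n, ((∑ i, pd i g (x k) * G k i s x) +
      lap g (x k) / 2 * φ s x)) 2 := by
    refine memLp_finsetSum _ fun k _ => ?_
    refine MemLp.add (memLp_finsetSum _ fun i _ => ?_) ?_
    · exact lmt_bdd (fun x => pd i g (x k)) _ ((c1 i).comp (continuous_apply k)) M
        (fun x => b1 i _) (hG k i s)
    · exact lmt_bdd (fun x => lap g (x k) / 2) _
        ((c2.comp (continuous_apply k)).div_const 2) M (fun x => b2 _) (hφ s)
  exact h1

/-- bound of the operator -/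
theorem lmt_PG_le {n : ℕ} (g : R3 → ℝ) (hg : ContDiff ℝ (⊤ : ℕ∞) g) (hc : HasCompactSupport g) :
    ∃ C : ℝ, ∀ (φ : Wf n) (G : Fin n → Fin 3 → Wf n), (∀ s, MemLp (φ s) 2) →
      (∀ k i s, MemLp (G k i s) 2) →
      sq (PG g φ G) ≤ C * ((∑ k, ∑ i, sq (G k i)) + sq φ) := by
  obtain ⟨c1, c2, M, hM, b1, b2⟩ := lmt_coef g hg hc
  refine ⟨4 * n * M ^ 2 * (n + 1), fun φ G hφ hG => ?_⟩
  have hpt : ∀ s x, PG g φ G s x ^ 2 ≤
      4 * n * M ^ 2 * ∑ k : Fin n, ((∑ i, G k i s x ^ 2) + φ s x ^ 2) := by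
    intro s x
    unfold PG
    refine (sq_sum_le_card_mul_sum_sq).trans ?_
    rw [Finset.card_univ, Fintype.card_fin, mul_assoc, mul_assoc, mul_left_comm]
    refine mul_le_mul_of_nonneg_left ?_ (by positivity)
    rw [← mul_assoc, Finset.mul_sum]
    refine Finset.sum_le_sum fun k _ => ?_
    have e1 : ∀ i, (pd i g (x k) * G k i s x) ^ 2 ≤ M ^ 2 * G k i s x ^ 2 := by
      intro i
      rw [mul_pow]
      refine mul_le_mul_of_nonneg_right ?_ (_root_.sq_nonneg _)
      rw [← sq_abs]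
      exact pow_le_pow_left₀ (abs_nonneg _) (b1 i _) 2
    have e2 : (lap g (x k) / 2 * φ s x) ^ 2 ≤ M ^ 2 * φ s x ^ 2 := by
      rw [mul_pow]
      refine mul_le_mul_of_nonneg_right ?_ (_root_.sq_nonneg _)
      rw [← sq_abs]
      exact pow_le_pow_left₀ (abs_nonneg _) (b2 _) 2
    rw [Fin.sum_univ_three, Fin.sum_univ_three]
    have f0 := e1 0
    have f1 := e1 1
    have f2 := e1 2
    set A := pd 0 g (x k) * G k 0 s x
    set B := pd 1 g (x k) * G k 1 s x
    set C := pd 2 g (x k) * G k 2 s x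
    set D := lap g (x k) / 2 * φ s x
    have : (A + B + C + D) ^ 2 ≤ 4 * (A ^ 2 + B ^ 2 + C ^ 2 + D ^ 2) := by
      nlinarith [_root_.sq_nonneg (A - B), _root_.sq_nonneg (A - C), _root_.sq_nonneg (A - D),
        _root_.sq_nonneg (B - C), _root_.sq_nonneg (B - D), _root_.sq_nonneg (C - D)]
    nlinarith
  have iφ : ∀ s, Integrable (fun x => φ s x ^ 2) := fun s => (hφ s).integrable_sq
  have iG : ∀ k i s, Integrable (fun x => G k i s x ^ 2) := fun k i s => (hG k i s).integrable_sq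
  have iS : ∀ s, Integrable (fun x => ∑ k : Fin n, ((∑ i, G k i s x ^ 2) + φ s x ^ 2)) :=
    fun s => integrable_finsetSum _ fun k _ =>
      (integrable_finsetSum _ fun i _ => iG k i s).add (iφ s)
  have hsum : sq (PG g φ G) ≤ ∑ s, 4 * n * M ^ 2 *
      ∑ k : Fin n, ((∑ i, ∫ x, G k i s x ^ 2) + ∫ x, φ s x ^ 2) := by
    refine Finset.sum_le_sum fun s _ => ?_
    have h1 : ∫ x, PG g φ G s x ^ 2 ≤
        ∫ x, 4 * n * M ^ 2 * ∑ k : Fin n, ((∑ i, G k i s x ^ 2) + φ s x ^ 2) :=
      integral_mono (lmt_PG_mem g hg hc φ G hφ hG s).integrable_sq ((iS s).const_mul _)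
        (fun x => hpt s x)
    refine h1.trans (le_of_eq ?_)
    rw [integral_const_mul]
    congr 1
    have h3 : ∀ k : Fin n, Integrable (fun x => (∑ i, G k i s x ^ 2) + φ s x ^ 2) := fun k =>
      (integrable_finsetSum _ fun i _ => iG k i s).add (iφ s)
    rw [integral_finsetSum _ fun k _ => h3 k]
    refine Finset.sum_congr rfl fun k _ => ?_
    rw [integral_add (integrable_finsetSum _ fun i _ => iG k i s) (iφ s),
      integral_finsetSum _ fun i _ => iG k i s]
  refine hsum.trans ?_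
  rw [← Finset.mul_sum]
  have e1 : ∑ s, ∑ k : Fin n, ((∑ i, ∫ x, G k i s x ^ 2) + ∫ x, φ s x ^ 2) =
      (∑ k, ∑ i, sq (G k i)) + n * sq φ := by
    rw [Finset.sum_comm]
    have : ∀ k : Fin n, ∑ s, ((∑ i, ∫ x, G k i s x ^ 2) + ∫ x, φ s x ^ 2) =
        (∑ i, sq (G k i)) + sq φ := by
      intro k
      rw [Finset.sum_add_distrib]
      congr 1
      rw [Finset.sum_comm]
      rfl
    rw [Finset.sum_congr rfl fun k _ => this k, Finset.sum_add_distrib, Finset.sum_const,
      Finset.card_univ, Fintype.card_fin, nsmul_eq_mul]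
  rw [e1]
  have p1 : 0 ≤ ∑ k, ∑ i, sq (G k i) :=
    Finset.sum_nonneg fun _ _ => Finset.sum_nonneg fun _ _ => lmt_sq_nonneg _
  have p2 := lmt_sq_nonneg φ
  rw [mul_assoc (4 * (n : ℝ) * M ^ 2)]
  refine mul_le_mul_of_nonneg_left ?_ (by positivity)
  have p3 : (0 : ℝ) ≤ n := by positivity
  nlinarith [mul_nonneg p3 p1]

theorem st_LMT : ST_LMT := by
  intro n E φ G u hgr hap
  obtain ⟨hsm, hu, hd, -, -⟩ := hap
  have mu : ∀ j s, MemLp (u j s) 2 := fun j s =>
    lmt_mem ((hsm j).1 s).1.continuous ((hsm j).1 s).2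
  have md : ∀ j k i s, MemLp (dv k i (u j s)) 2 := fun j k i s =>
    lmt_mem (lmt_dv ((hsm j).1 s).1 ((hsm j).1 s).2 k i).1
      (lmt_dv ((hsm j).1 s).1 ((hsm j).1 s).2 k i).2
  refine ⟨?_, ?_, ?_⟩
  · have := lmt_conv u φ mu hgr.lp hu
    rwa [hgr.norm] at this
  · unfold kin kinG
    refine tendsto_finsetSum _ fun k _ => tendsto_finsetSum _ fun i _ => ?_
    exact lmt_conv (fun j s => dv k i (u j s)) (G k i) (fun j s => md j k i s)
      (fun s => hgr.lpG k i s) (hd k i)
  · intro g hg hc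
    have h1 : ∀ j s x, Pg g (u j s) x - PG g φ G s x =
        PG g (fun s x => u j s x - φ s x) (fun k i s x => dv k i (u j s) x - G k i s x) s x := by
      intro j s x
      unfold Pg PG
      rw [← Finset.sum_sub_distrib]
      refine Finset.sum_congr rfl fun k _ => ?_
      simp only [mul_sub, Finset.sum_sub_distrib]
      ring
    refine lmt_conv (fun j s => Pg g (u j s)) (PG g φ G) ?_
      (lmt_PG_mem g hg hc φ G hgr.lp hgr.lpG) ?_
    · intro j s
      exact lmt_PG_mem g hg hc (u j) (fun k i s => dv k i (u j s)) (mu j)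
        (fun k i s => md j k i s) s
    · obtain ⟨C, hC⟩ := lmt_PG_le (n := n) g hg hc
      have h2 : ∀ j, sq (fun s x => Pg g (u j s) x - PG g φ G s x) ≤
          C * ((∑ k, ∑ i, sq (fun s x => dv k i (u j s) x - G k i s x)) +
            sq (fun s x => u j s x - φ s x)) := by
        intro j
        have h3 : (fun s x => Pg g (u j s) x - PG g φ G s x) =
            PG g (fun s x => u j s x - φ s x) (fun k i s x => dv k i (u j s) x - G k i s x) := by
          funext s x
          exact h1 j s x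
        rw [h3]
        exact hC _ _ (fun s => (mu j s).sub (hgr.lp s))
          (fun k i s => (md j k i s).sub (hgr.lpG k i s))
      have h4 : Tendsto (fun j => C * ((∑ k, ∑ i, sq (fun s x => dv k i (u j s) x - G k i s x)) +
          sq (fun s x => u j s x - φ s x))) atTop (nhds 0) := by
        have h5 : Tendsto (fun j => ∑ k, ∑ i, sq (fun s x => dv k i (u j s) x - G k i s x))
            atTop (nhds (∑ k : Fin n, ∑ i : Fin 3, (0 : ℝ))) :=
          tendsto_finsetSum _ fun k _ => tendsto_finsetSum _ fun i _ => hd k i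
        have h6 := (h5.add hu).const_mul C
        simpa using h6
      exact squeeze_zero (fun j => lmt_sq_nonneg _) h2 h4

end Pool.Agent.Helper95.PW
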